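import Pool.Agent.N641.VB.Stm6
import Pool.Agent.N227.VB.ST2

set_option autoImplicit false

/-!
# Project VB: ST6 (helper390)

Countably many types of the Boolean algebras with a measure which are interpreted (on definable sets
of tuples, modulo definable equivalence relations) in the models of a theory without perfectly many
models. After the parts ST2 of helper227 and ST4 of helper293.
-/

namespace Pool.Agent.N390.VB.ST6

open Set MeasureTheory FirstOrder FirstOrder.Language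
open Pool.Agent.N641.VB Pool.Agent.N227.VB.ST2

variable {L : FirstOrder.Language.{0, 0}} {M : Type} {n t : ℕ}

section rel

variable {le le' : ℕ → ℕ → Prop} {Z : ℕ → ℕ → Prop}

theorem dif_rel (h2 : ∀ x', ∃ x, Z x x') (h1 : ∀ x, ∃ x', Z x x')
    (h : ∀ x x' y y', Z x x' → Z y y' → (le x y ↔ le' x' y')) {a a' b b' c c' : ℕ}
    (ha : Z a a') (hb : Z b b') (hc : Z c c') : Dif le a b c ↔ Dif le' a' b' c' := by
  unfold Dif
  rw [h b b' a a' hb ha, h c c' a a' hc ha]
  refine and_congr_right fun _ => and_congr_right fun _ => ?_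
  constructor
  · rintro ⟨h3, h4⟩
    refine ⟨fun d' hd hd' g' => ?_, fun d' hd hd' => ?_⟩
    · obtain ⟨d, hZ⟩ := h2 d'
      obtain ⟨g, hG⟩ := h2 g'
      exact (h d d' g g' hZ hG).1 (h3 d ((h d d' b b' hZ hb).2 hd) ((h d d' c c' hZ hc).2 hd') g)
    · obtain ⟨d, hZ⟩ := h2 d'
      exact (h a a' d d' ha hZ).1 (h4 d ((h b b' d d' hb hZ).2 hd) ((h c c' d d' hc hZ).2 hd'))
  · rintro ⟨h3, h4⟩
    refine ⟨fun d hd hd' g => ?_, fun d hd hd' => ?_⟩
    · obtain ⟨d', hZ⟩ := h1 d
      obtain ⟨g', hG⟩ := h1 g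
      exact (h d d' g g' hZ hG).2 (h3 d' ((h d d' b b' hZ hb).1 hd) ((h d d' c c' hZ hc).1 hd') g')
    · obtain ⟨d', hZ⟩ := h1 d
      exact (h a a' d d' ha hZ).2 (h4 d' ((h b b' d d' hb hZ).1 hd) ((h c c' d d' hc hZ).1 hd'))

/-- types are invariant under relations that are total on both sides -/
theorem tpc_rel {mu mu' : ℕ → M} (h2 : ∀ x', ∃ x, Z x x') (h1 : ∀ x, ∃ x', Z x x')
    (h : ∀ x x' y y', Z x x' → Z y y' → (le x y ↔ le' x' y'))
    (hm : ∀ x x', Z x x' → mu x = mu' x') :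
    ∀ k a a', Z a a' → tpc le mu k a = tpc le' mu' k a'
  | 0, a, a', ha => by
    refine propext ⟨fun h3 b' => ?_, fun h3 b => ?_⟩
    · obtain ⟨b, hb⟩ := h2 b'
      exact (h a a' b b' ha hb).1 (h3 b)
    · obtain ⟨b', hb⟩ := h1 b
      exact (h a a' b b' ha hb).2 (h3 b')
  | k + 1, a, a', ha => by
    refine Prod.ext (hm a a' ha) (Set.ext fun q => ?_)
    constructor
    · rintro ⟨b, c, h3, rfl⟩
      obtain ⟨b', hb⟩ := h1 b
      obtain ⟨c', hc⟩ := h1 c
      exact ⟨b', c', (dif_rel h2 h1 h ha hb hc).1 h3, by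
        rw [tpc_rel h2 h1 h hm k b b' hb, tpc_rel h2 h1 h hm k c c' hc]⟩
    · rintro ⟨b', c', h3, rfl⟩
      obtain ⟨b, hb⟩ := h2 b'
      obtain ⟨c, hc⟩ := h2 c'
      exact ⟨b, c, (dif_rel h2 h1 h ha hb hc).2 h3, by
        rw [tpc_rel h2 h1 h hm k b b' hb, tpc_rel h2 h1 h hm k c c' hc]⟩

end rel

/-- the tuple coded by a number -/
noncomputable def enc (t : ℕ) : ℕ → (Fin t → ℕ) := (exists_surjective_nat _).choose

theorem enc_surj (t : ℕ) : Function.Surjective (enc t) := (exists_surjective_nat _).choose_spec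

/-- the tuple represents an element of the algebra -/
def Dm (dom : L.Formula (Fin n ⊕ Fin t)) (S : L.Structure ℕ) (p : Fin n → ℕ)
    (u : Fin t → ℕ) : Prop := @Formula.Realize L ℕ S _ dom (Sum.elim p u)

open Classical in
/-- the tuple coded by `x` if it represents an element of the algebra, `d` otherwise -/
noncomputable def hat (dom : L.Formula (Fin n ⊕ Fin t)) (S : L.Structure ℕ) (p : Fin n → ℕ)
    (d : Fin t → ℕ) (x : ℕ) : Fin t → ℕ := if Dm dom S p (enc t x) then enc t x else d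

theorem hat_pos {dom : L.Formula (Fin n ⊕ Fin t)} {S : L.Structure ℕ} {p : Fin n → ℕ}
    {d : Fin t → ℕ} {x : ℕ} (h : Dm dom S p (enc t x)) : hat dom S p d x = enc t x := if_pos h

theorem hat_neg {dom : L.Formula (Fin n ⊕ Fin t)} {S : L.Structure ℕ} {p : Fin n → ℕ}
    {d : Fin t → ℕ} {x : ℕ} (h : ¬ Dm dom S p (enc t x)) : hat dom S p d x = d := if_neg h

theorem hat_dm {dom : L.Formula (Fin n ⊕ Fin t)} {S : L.Structure ℕ} {p : Fin n → ℕ}
    {d : Fin t → ℕ} (hd : Dm dom S p d) (x : ℕ) : Dm dom S p (hat dom S p d x) := by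
  by_cases h : Dm dom S p (enc t x)
  · rw [hat_pos h]
    exact h
  · rw [hat_neg h]
    exact hd

/-- two tuples as one -/
def two (u v : Fin t → ℕ) : Fin 2 × Fin t → ℕ := fun i => (![u, v] : Fin 2 → Fin t → ℕ) i.1 i.2

/-- the preorder -/
def leT (φ : L.Formula (Fin n ⊕ Fin 2 × Fin t)) (S : L.Structure ℕ) (p : Fin n → ℕ)
    (u v : Fin t → ℕ) : Prop := @Formula.Realize L ℕ S _ φ (Sum.elim p (two u v))

/-- the possible values of the measure -/
def vsT (ψ : M → L.Formula (Fin n ⊕ Fin t)) (S : L.Structure ℕ) (p : Fin n → ℕ)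
    (u : Fin t → ℕ) : Set M := {c | @Formula.Realize L ℕ S _ (ψ c) (Sum.elim p u)}

/-- the preorder on the codes -/
def le6 (dom : L.Formula (Fin n ⊕ Fin t)) (φ : L.Formula (Fin n ⊕ Fin 2 × Fin t))
    (S : L.Structure ℕ) (p : Fin n → ℕ) (d : Fin t → ℕ) (x y : ℕ) : Prop :=
  leT φ S p (hat dom S p d x) (hat dom S p d y)

/-- the measure on the codes -/
noncomputable def mu6 (c : M) (dom : L.Formula (Fin n ⊕ Fin t)) (ψ : M → L.Formula (Fin n ⊕ Fin t))
    (S : L.Structure ℕ) (p : Fin n → ℕ) (d : Fin t → ℕ) (x : ℕ) : M :=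
  sg c (vsT ψ S p (hat dom S p d x))

theorem meas_hat (dom : L.Formula (Fin n ⊕ Fin t)) (p : Fin n → ℕ) (d : Fin t → ℕ) (x : ℕ)
    (u : Fin t → ℕ) :
    @MeasurableSet _ (SM L) {S : L.Structure ℕ | hat dom S p d x = u} := by
  let _ := SM L
  have h0 : MeasurableSet {S : L.Structure ℕ | Dm dom S p (enc t x)} := meas_SM dom _
  have e1 : {S : L.Structure ℕ | hat dom S p d x = u} =
      ({S : L.Structure ℕ | Dm dom S p (enc t x)} ∩ {_S : L.Structure ℕ | enc t x = u}) ∪
        ({S : L.Structure ℕ | Dm dom S p (enc t x)}ᶜ ∩ {_S : L.Structure ℕ | d = u}) := by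
    ext S
    by_cases h : Dm dom S p (enc t x)
    · constructor
      · intro h1
        left
        refine ⟨h, ?_⟩
        rw [mem_ofPred_eq, hat_pos h] at h1
        exact h1
      · rintro (⟨_, h2⟩ | ⟨h1, _⟩)
        · rw [mem_ofPred_eq, hat_pos h]
          exact h2
        · exact absurd h h1
    · constructor
      · intro h1
        right
        refine ⟨h, ?_⟩
        rw [mem_ofPred_eq, hat_neg h] at h1
        exact h1
      · rintro (⟨h1, _⟩ | ⟨_, h2⟩)
        · exact absurd h1 h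
        · rw [mem_ofPred_eq, hat_neg h]
          exact h2
  rw [e1]
  exact (h0.inter (MeasurableSet.const _)).union (h0.compl.inter (MeasurableSet.const _))

theorem meas_le6 (dom : L.Formula (Fin n ⊕ Fin t)) (φ : L.Formula (Fin n ⊕ Fin 2 × Fin t))
    (p : Fin n → ℕ) (d : Fin t → ℕ) (x y : ℕ) :
    @MeasurableSet _ (SM L) {S : L.Structure ℕ | le6 dom φ S p d x y} := by
  let _ := SM L
  have e1 : {S : L.Structure ℕ | le6 dom φ S p d x y} =
      ⋃ u : Fin t → ℕ, ⋃ v : Fin t → ℕ, ({S : L.Structure ℕ | hat dom S p d x = u} ∩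
        {S : L.Structure ℕ | hat dom S p d y = v}) ∩ {S : L.Structure ℕ | leT φ S p u v} := by
    ext S
    simp only [mem_iUnion, mem_inter_iff]
    constructor
    · intro h
      exact ⟨_, _, ⟨rfl, rfl⟩, h⟩
    · rintro ⟨u, v, ⟨h1, h2⟩, h3⟩
      rw [mem_ofPred_eq] at h1 h2
      rw [← h1, ← h2] at h3
      exact h3
  rw [e1]
  exact MeasurableSet.iUnion fun u => MeasurableSet.iUnion fun v =>
    ((meas_hat dom p d x u).inter (meas_hat dom p d y v)).inter (meas_SM φ _)

theorem meas_vs [Finite M] (c0 : M) (ψ : M → L.Formula (Fin n ⊕ Fin t)) (p : Fin n → ℕ)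
    (u : Fin t → ℕ) (v : M) :
    @MeasurableSet _ (SM L) {S : L.Structure ℕ | sg c0 (vsT ψ S p u) = v} := by
  let _ := SM L
  have h1 : ∀ s : Set M, MeasurableSet {S : L.Structure ℕ | vsT ψ S p u = s} := by
    intro s
    have e1 : {S : L.Structure ℕ | vsT ψ S p u = s} =
        ⋂ c : M, {S : L.Structure ℕ | c ∈ vsT ψ S p u ↔ c ∈ s} := by
      ext S
      rw [mem_iInter]
      exact Set.ext_iff
    rw [e1]
    refine MeasurableSet.iInter fun c => ?_
    have h2 : MeasurableSet {S : L.Structure ℕ | c ∈ vsT ψ S p u} := meas_SM (ψ c) _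
    by_cases hc : c ∈ s
    · have e2 : {S : L.Structure ℕ | c ∈ vsT ψ S p u ↔ c ∈ s} = {S | c ∈ vsT ψ S p u} := by
        ext S
        exact iff_true_right hc
      rw [e2]
      exact h2
    · have e2 : {S : L.Structure ℕ | c ∈ vsT ψ S p u ↔ c ∈ s} = {S | c ∈ vsT ψ S p u}ᶜ := by
        ext S
        exact iff_false_right hc
      rw [e2]
      exact h2.compl
  have e3 : {S : L.Structure ℕ | sg c0 (vsT ψ S p u) = v} =
      ⋃ s : {s : Set M // sg c0 s = v}, {S : L.Structure ℕ | vsT ψ S p u = s.1} := by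
    ext S
    rw [mem_iUnion]
    constructor
    · intro h
      exact ⟨⟨vsT ψ S p u, h⟩, rfl⟩
    · rintro ⟨⟨s, hs⟩, h⟩
      have h' : vsT ψ S p u = s := h
      show sg c0 (vsT ψ S p u) = v
      rw [h']
      exact hs
  rw [e3]
  exact MeasurableSet.iUnion fun s => h1 s.1

theorem meas_mu6 [Finite M] (c0 : M) (dom : L.Formula (Fin n ⊕ Fin t))
    (ψ : M → L.Formula (Fin n ⊕ Fin t)) (p : Fin n → ℕ) (d : Fin t → ℕ) (x : ℕ) (v : M) :
    @MeasurableSet _ (SM L) {S : L.Structure ℕ | mu6 c0 dom ψ S p d x = v} := by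
  let _ := SM L
  have e1 : {S : L.Structure ℕ | mu6 c0 dom ψ S p d x = v} =
      ⋃ u : Fin t → ℕ, {S : L.Structure ℕ | hat dom S p d x = u} ∩
        {S : L.Structure ℕ | sg c0 (vsT ψ S p u) = v} := by
    ext S
    simp only [mem_iUnion, mem_inter_iff]
    constructor
    · intro h
      exact ⟨_, rfl, h⟩
    · rintro ⟨u, h1, h3⟩
      rw [mem_ofPred_eq] at h1
      rw [← h1] at h3
      exact h3
  rw [e1]
  exact MeasurableSet.iUnion fun u => (meas_hat dom p d x u).inter (meas_vs c0 ψ p u v)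

section iso

variable {S S' : L.Structure ℕ} (e : @FirstOrder.Language.Equiv L ℕ ℕ S S')

/-- the image of a tuple -/
def im {β : Type} (v : β → ℕ) : β → ℕ := fun i => tE S S' e (v i)

theorem real_iso {β : Type} (χ : L.Formula (Fin n ⊕ β)) (p : Fin n → ℕ) (v : β → ℕ) :
    @Formula.Realize L ℕ S' _ χ (Sum.elim (im e p) (im e v)) ↔
      @Formula.Realize L ℕ S _ χ (Sum.elim p v) := by
  have h := tE_realize χ S S' e (Sum.elim p v)
  have h1 : (fun i => tE S S' e (Sum.elim p v i)) = Sum.elim (im e p) (im e v) := by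
    funext i
    rcases i with i | i
    · rfl
    · rfl
  rw [h1] at h
  exact h

theorem im_two (u v : Fin t → ℕ) : im e (two u v) = two (im e u) (im e v) := by
  funext i
  obtain ⟨i, k⟩ := i
  fin_cases i <;> rfl

theorem dm_iso (dom : L.Formula (Fin n ⊕ Fin t)) (p : Fin n → ℕ) (u : Fin t → ℕ) :
    Dm dom S' (im e p) (im e u) ↔ Dm dom S p u := real_iso e dom p u

theorem leT_iso (φ : L.Formula (Fin n ⊕ Fin 2 × Fin t)) (p : Fin n → ℕ) (u v : Fin t → ℕ) :
    leT φ S' (im e p) (im e u) (im e v) ↔ leT φ S p u v := by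
  unfold leT
  rw [← im_two]
  exact real_iso e φ p _

theorem vsT_iso (ψ : M → L.Formula (Fin n ⊕ Fin t)) (p : Fin n → ℕ) (u : Fin t → ℕ) :
    vsT ψ S' (im e p) (im e u) = vsT ψ S p u := Set.ext fun c => real_iso e (ψ c) p u

theorem im_surj {β : Type} (v : β → ℕ) : ∃ u, im e u = v :=
  ⟨fun i => (tE S S' e).symm (v i), funext fun _ => (tE S S' e).apply_symm_apply _⟩

end iso

theorem hat_iso {S S' : L.Structure ℕ} (e : @FirstOrder.Language.Equiv L ℕ ℕ S S')
    {dom : L.Formula (Fin n ⊕ Fin t)} {p : Fin n → ℕ} {d : Fin t → ℕ} {x x' : ℕ}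
    (h : enc t x' = im e (enc t x)) :
    im e (hat dom S p d x) = hat dom S' (im e p) (im e d) x' := by
  by_cases hx : Dm dom S p (enc t x)
  · rw [hat_pos hx, hat_pos, h]
    rw [h]
    exact (dm_iso e dom p _).2 hx
  · rw [hat_neg hx, hat_neg]
    rw [h]
    exact fun h1 => hx ((dm_iso e dom p _).1 h1)

theorem tpc_iso6 {S S' : L.Structure ℕ} (e : @FirstOrder.Language.Equiv L ℕ ℕ S S') (c0 : M)
    {dom : L.Formula (Fin n ⊕ Fin t)} {φ : L.Formula (Fin n ⊕ Fin 2 × Fin t)}
    {ψ : M → L.Formula (Fin n ⊕ Fin t)} {p : Fin n → ℕ} {d : Fin t → ℕ} {a a' : ℕ}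
    (hd : Dm dom S p d) (h : enc t a' = im e (enc t a)) (k : ℕ) :
    tpc (le6 dom φ S p d) (mu6 c0 dom ψ S p d) k a =
      tpc (le6 dom φ S' (im e p) (im e d)) (mu6 c0 dom ψ S' (im e p) (im e d)) k a' := by
  have hd' : Dm dom S' (im e p) (im e d) := (dm_iso e dom p d).2 hd
  refine tpc_rel (Z := fun x x' => im e (hat dom S p d x) = hat dom S' (im e p) (im e d) x')
    ?_ ?_ ?_ ?_ k a a' (hat_iso e h)
  · intro x'
    obtain ⟨u, hu⟩ := im_surj e (hat dom S' (im e p) (im e d) x')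
    obtain ⟨x, rfl⟩ := enc_surj t u
    refine ⟨x, ?_⟩
    have h1 : Dm dom S p (enc t x) := by
      refine (dm_iso e dom p _).1 ?_
      rw [hu]
      exact hat_dm hd' x'
    show im e (hat dom S p d x) = _
    rw [hat_pos h1, hu]
  · intro x
    obtain ⟨x', hx'⟩ := enc_surj t (im e (hat dom S p d x))
    refine ⟨x', ?_⟩
    have h1 : Dm dom S' (im e p) (enc t x') := by
      rw [hx']
      exact (dm_iso e dom p _).2 (hat_dm hd x)
    show im e (hat dom S p d x) = _
    rw [hat_pos h1, hx']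
  · intro x x' y y' hx hy
    unfold le6
    rw [← hx, ← hy]
    exact (leT_iso e φ p _ _).symm
  · intro x x' hx
    unfold mu6
    rw [← hx, vsT_iso e ψ p _]

theorem tpc_dec {S : L.Structure ℕ} (c0 : M) {dom : L.Formula (Fin n ⊕ Fin t)}
    {φ : L.Formula (Fin n ⊕ Fin 2 × Fin t)} {ψ : M → L.Formula (Fin n ⊕ Fin t)}
    {p : Fin n → ℕ} {bo : BooleanAlgebra ℕ} {mu : ℕ → M} {f : (Fin t → ℕ) → ℕ}
    (h : Dec6 S p dom φ ψ bo mu f) {d : Fin t → ℕ} (hd : Dm dom S p d) {a : ℕ}
    (ha : Dm dom S p (enc t a)) (k : ℕ) :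
    tpc (le6 dom φ S p d) (mu6 c0 dom ψ S p d) k a = tpc bo.le mu k (f (enc t a)) := by
  refine tpc_rel (Z := fun x b => f (hat dom S p d x) = b) ?_ ?_ ?_ ?_ k a _ ?_
  · intro b
    obtain ⟨u, h1, h2⟩ := h.surj b
    obtain ⟨x, rfl⟩ := enc_surj t u
    refine ⟨x, ?_⟩
    show f (hat dom S p d x) = b
    rw [hat_pos h1, h2]
  · exact fun x => ⟨_, rfl⟩
  · rintro x _ y _ rfl rfl
    have h1 := h.le (two (hat dom S p d x) (hat dom S p d y)) (fun i => by
      fin_cases i
      · exact hat_dm hd x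
      · exact hat_dm hd y)
    exact h1
  · rintro x _ rfl
    have e1 : vsT ψ S p (hat dom S p d x) = {mu (f (hat dom S p d x))} := by
      ext c
      refine (h.val c _ (hat_dm hd x)).trans ?_
      rw [mem_singleton_iff]
      exact eq_comm
    unfold mu6
    rw [e1, sg_eq]
  · show f (hat dom S p d a) = _
    rw [hat_pos ha]

/-- the parameters, the default tuple and the element coded by a number -/
noncomputable def dm6 (n t : ℕ) : ℕ → (Fin n → ℕ) × (Fin t → ℕ) × ℕ :=
  (exists_surjective_nat _).choose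

theorem dm6_surj (n t : ℕ) : Function.Surjective (dm6 n t) :=
  (exists_surjective_nat _).choose_spec

open Classical in
theorem ST6 (SIL : S_SIL) (MEA : S_MEA) : S_ST6 := by
  intro L hL T M _ _ n t dom φ ψ hP
  have hj : ∀ k, ∃ j : TP M k → ℕ, Function.Injective j := fun k => Countable.exists_injective_nat _
  choose j hj using hj
  let W : L.Structure ℕ → ℕ → FT M := fun S m k =>
    tpc (le6 dom φ S (dm6 n t m).1 (dm6 n t m).2.1)
      (mu6 0 dom ψ S (dm6 n t m).1 (dm6 n t m).2.1) k (dm6 n t m).2.2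
  let V : L.Structure ℕ → ℕ → (ℕ → Bool) := fun S m =>
    if Dm dom S (dm6 n t m).1 (dm6 n t m).2.1 then cd j (W S m) else fun _ => false
  have hW : ∀ m i, @MeasurableSet _ (SM L) {S : L.Structure ℕ | cd j (W S m) i = true} := by
    intro m i
    let _ := SM L
    have e1 : {S : L.Structure ℕ | cd j (W S m) i = true} =
        {S : L.Structure ℕ | j i.unpair.1 (W S m i.unpair.1) = i.unpair.2} := by
      ext S
      exact decide_eq_true_iff
    rw [e1]
    by_cases hσ : ∃ σ, j i.unpair.1 σ = i.unpair.2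
    · obtain ⟨σ, hσ⟩ := hσ
      have e2 : {S : L.Structure ℕ | j i.unpair.1 (W S m i.unpair.1) = i.unpair.2} =
          {S : L.Structure ℕ | W S m i.unpair.1 = σ} := by
        ext S
        rw [mem_ofPred_eq, mem_ofPred_eq, ← hσ]
        exact (hj _).eq_iff
      rw [e2]
      exact (MEA M).2 (L.Structure ℕ)
        (fun S => le6 dom φ S (dm6 n t m).1 (dm6 n t m).2.1)
        (fun S => mu6 0 dom ψ S (dm6 n t m).1 (dm6 n t m).2.1)
        (fun a b => meas_le6 dom φ _ _ a b) (fun a v => meas_mu6 0 dom ψ _ _ a v) _ _ σ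
    · have e2 : {S : L.Structure ℕ | j i.unpair.1 (W S m i.unpair.1) = i.unpair.2} = ∅ := by
        ext S
        exact iff_of_false (fun h => hσ ⟨_, h⟩) (notMem_empty S)
      rw [e2]
      exact MeasurableSet.empty
  have hV : ∀ m k, @MeasurableSet _ (SM L) {S : L.Structure ℕ | V S m k = true} := by
    intro m i
    let _ := SM L
    have h0 : MeasurableSet {S : L.Structure ℕ | Dm dom S (dm6 n t m).1 (dm6 n t m).2.1} :=
      meas_SM dom _
    have e1 : {S : L.Structure ℕ | V S m i = true} =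
        {S : L.Structure ℕ | Dm dom S (dm6 n t m).1 (dm6 n t m).2.1} ∩
          {S : L.Structure ℕ | cd j (W S m) i = true} := by
      ext S
      by_cases h : Dm dom S (dm6 n t m).1 (dm6 n t m).2.1
      · have h1 : V S m = cd j (W S m) := if_pos h
        rw [mem_ofPred_eq, h1]
        exact ⟨fun h2 => ⟨h, h2⟩, fun h2 => h2.2⟩
      · have h1 : V S m = fun _ => false := if_neg h
        rw [mem_ofPred_eq, h1]
        exact ⟨fun h2 => absurd h2 (by simp), fun h2 => absurd h2.1 h⟩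
    rw [e1]
    exact h0.inter (hW m i)
  have hI : ∀ S S' : L.Structure ℕ, Nonempty (@FirstOrder.Language.Equiv L ℕ ℕ S S') →
      ∀ m, ∃ m', V S' m' = V S m := by
    rintro S S' ⟨e⟩ m
    obtain ⟨a', ha'⟩ := enc_surj t (im e (enc t (dm6 n t m).2.2))
    obtain ⟨m', hm'⟩ := dm6_surj n t (im e (dm6 n t m).1, im e (dm6 n t m).2.1, a')
    refine ⟨m', ?_⟩
    have h0 : Dm dom S' (dm6 n t m').1 (dm6 n t m').2.1 ↔
        Dm dom S (dm6 n t m).1 (dm6 n t m).2.1 := by
      rw [hm']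
      exact dm_iso e dom _ _
    by_cases h : Dm dom S (dm6 n t m).1 (dm6 n t m).2.1
    · have h1 : V S m = cd j (W S m) := if_pos h
      have h2 : V S' m' = cd j (W S' m') := if_pos (h0.2 h)
      rw [h1, h2]
      congr 1
      funext k
      show tpc (le6 dom φ S' (dm6 n t m').1 (dm6 n t m').2.1)
        (mu6 0 dom ψ S' (dm6 n t m').1 (dm6 n t m').2.1) k (dm6 n t m').2.2 = _
      rw [hm']
      exact (tpc_iso6 e 0 h ha' k).symm
    · have h1 : V S m = fun _ => false := if_neg h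
      have h2 : V S' m' = fun _ => false := if_neg fun h3 => h (h0.1 h3)
      rw [h1, h2]
  have hc := SIL L hL T V hV hI hP
  refine Set.MapsTo.countable_of_injOn (f := cd j) ?_ (cd_inj hj).injOn hc
  rintro w ⟨S, p, bo, mu, f, a, hT, hD, hA, rfl⟩
  obtain ⟨x, hx, rfl⟩ := hD.surj a
  obtain ⟨x, rfl⟩ := enc_surj t x
  obtain ⟨m, hm⟩ := dm6_surj n t (p, enc t x, x)
  refine ⟨S, hT, m, ?_⟩
  have h : Dm dom S (dm6 n t m).1 (dm6 n t m).2.1 := by
    rw [hm]
    exact hx
  have h1 : V S m = cd j (W S m) := if_pos h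
  rw [h1]
  congr 1
  funext k
  show tpc (le6 dom φ S (dm6 n t m).1 (dm6 n t m).2.1)
    (mu6 0 dom ψ S (dm6 n t m).1 (dm6 n t m).2.1) k (dm6 n t m).2.2 = _
  rw [hm]
  exact (tpc_dec 0 hD hx hx k).trans ((MEA M).1 bo mu k (f (enc t x)))

end Pool.Agent.N390.VB.ST6
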